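import Mathlib

set_option autoImplicit false

namespace Pool.Agent.Results.MP_10a600_co.Complete

/-- the open `M`-distance pattern of `u` -/
def pattern {V : Type} (G : SimpleGraph V) (M : Set V) (u : V) : Set ℕ :=
  {k | ∃ v ∈ M, v ≠ u ∧ G.dist u v = k}

/-- `M` is an ODPU-set -/
def ODPU {V : Type} (G : SimpleGraph V) (M : Set V) : Prop :=
  M.Nonempty ∧ ∀ u w, pattern G M u = pattern G M w

/-- `S` is a total dominating set -/
def TotalDom {V : Type} (G : SimpleGraph V) (S : Set V) : Prop := ∀ v, ∃ u ∈ S, G.Adj v u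

theorem result {V : Type} [Finite V] (G : SimpleGraph V) (hG : G.Connected) :
    (∀ S, TotalDom G S → ODPU G S) ↔ G = ⊤ := by
  constructor
  · intro h
    by_contra hne
    obtain ⟨u, x, hux, hn⟩ : ∃ u x, u ≠ x ∧ ¬ G.Adj u x := by
      by_contra c
      push Not at c
      exact hne (by ext a b; exact ⟨fun h => h.ne, c a b⟩)
    have := hG.nonempty
    obtain ⟨w, hw⟩ := Finite.exists_max fun v => G.dist u v
    have h2 : 1 < G.dist u w := lt_of_lt_of_le (hG.one_lt_dist_of_ne_of_not_adj hux hn) (hw x)
    have step : ∀ v, v ≠ u → ∃ y, G.Adj v y ∧ G.dist u y < G.dist u v := fun v hv => by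
      obtain ⟨p, hp⟩ := hG.exists_walk_length_eq_dist v u
      cases p with
      | nil => exact absurd rfl hv
      | cons a q =>
        refine ⟨_, a, ?_⟩
        have := G.dist_le q
        rw [G.dist_comm (u := u), G.dist_comm (u := u), ← hp, SimpleGraph.Walk.length_cons]
        omega
    have hT : TotalDom G {v | G.dist u v < G.dist u w} := fun v => by
      by_cases e : v = u
      · obtain ⟨p⟩ := hG u x
        cases p with
        | nil => exact absurd rfl hux
        | cons a q =>
          refine ⟨_, ?_, e ▸ a⟩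
          rw [Set.mem_ofPred_eq, SimpleGraph.dist_eq_one_iff_adj.2 a]; exact h2
      · obtain ⟨y, a, b⟩ := step v e
        exact ⟨y, lt_of_lt_of_le b (hw v), a⟩
    have e := (h _ hT).2 w u
    have m : G.dist u w ∈ pattern G {v | G.dist u v < G.dist u w} w :=
      ⟨u, by simp; omega, fun e => by rw [e] at h2; simp at h2, G.dist_comm⟩
    rw [e] at m
    obtain ⟨v, a, -, c⟩ := m
    exact absurd c (ne_of_lt a)
  · rintro rfl S hS
    have key : ∀ u, pattern ⊤ S u = {1} := fun u => by
      ext k
      constructor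
      · rintro ⟨v, -, b, rfl⟩
        exact SimpleGraph.dist_top_of_ne b.symm
      · rintro rfl
        obtain ⟨v, a, b⟩ := hS u
        exact ⟨v, a, b.ne.symm, SimpleGraph.dist_top_of_ne b.ne⟩
    obtain ⟨u⟩ := hG.nonempty
    obtain ⟨v, a, -⟩ := hS u
    exact ⟨⟨v, a⟩, fun u w => by rw [key, key]⟩

end Pool.Agent.Results.MP_10a600_co.Complete
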